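import Mathlib

set_option autoImplicit false

namespace Pool.Agent.Results.MP_4cf4e3_co.SumsDifferences

open Filter

attribute [local instance] Ultrafilter.mul Ultrafilter.add
attribute [local instance] Ultrafilter.semigroup Ultrafilter.addSemigroup

/-- The closed left ideal of all ultrafilters on `ℤ` all of whose translates contain `T`. -/
def thickPart (T : Set ℕ) : Set (Ultrafilter ℤ) :=
  {u | ∀ x : ℤ, ∀ᶠ y in (u : Filter ℤ), 0 < x + y ∧ (x + y).toNat ∈ T}

theorem thickPart_closed (T : Set ℕ) : IsClosed (thickPart T) := by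
  have : thickPart T =
      ⋂ x : ℤ, {u : Ultrafilter ℤ | {y : ℤ | 0 < x + y ∧ (x + y).toNat ∈ T} ∈ u} := by
    ext u
    simp only [thickPart, Set.mem_iInter, Set.mem_ofPred_eq]
    rfl
  rw [this]
  exact isClosed_iInter fun x => ultrafilter_isClosed_basic _

theorem thickPart_nonempty (T : Set ℕ) (hT : ∀ N : ℕ, ∃ m : ℕ, ∀ j < N, m + j ∈ T) :
    (thickPart T).Nonempty := by
  obtain ⟨F, hF⟩ := Ultrafilter.exists_ultrafilter_of_finite_inter_nonempty
    (Set.range fun x : ℤ => {y : ℤ | 0 < x + y ∧ (x + y).toNat ∈ T}) (by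
      intro S hS
      obtain ⟨M, hM⟩ : ∃ M : ℕ, ∀ t ∈ S, ∃ x : ℤ, |x| ≤ M ∧
          {y : ℤ | 0 < x + y ∧ (x + y).toNat ∈ T} = t := by
        induction S using Finset.induction_on with
        | empty => exact ⟨0, by simp⟩
        | insert t S' _ ih =>
          obtain ⟨M, hM⟩ := ih (fun z hz => hS (by simpa using Or.inr hz))
          obtain ⟨x, hx⟩ := hS (show t ∈ ((insert t S' : Finset (Set ℤ)) : Set (Set ℤ)) by simp)
          refine ⟨max M x.natAbs, fun z hz => ?_⟩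
          rcases Finset.mem_insert.1 hz with rfl | hz
          · refine ⟨x, ?_, hx⟩
            have : ((max M x.natAbs : ℕ) : ℤ) = max (M : ℤ) |x| := by
              rw [Nat.cast_max, Int.natCast_natAbs]
            rw [this]
            exact le_max_right _ _
          · obtain ⟨y, hy, hyz⟩ := hM z hz
            refine ⟨y, hy.trans ?_, hyz⟩
            exact_mod_cast le_max_left _ _
      obtain ⟨m, hm⟩ := hT (2 * M + 2)
      refine ⟨(m : ℤ) + M + 1, ?_⟩
      rw [Set.mem_sInter]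
      intro t ht
      obtain ⟨x, hx, rfl⟩ := hM t ht
      have h1 := neg_abs_le x
      have h2 := le_abs_self x
      refine ⟨by linarith, ?_⟩
      have h3 := hm (x + M + 1).toNat (by omega)
      have h4 : m + (x + M + 1).toNat = (x + (m + M + 1)).toNat := by omega
      rw [h4] at h3
      exact h3)
  refine ⟨F, fun x => ?_⟩
  exact hF ⟨x, rfl⟩

theorem thickPart_ideal (T : Set ℕ) (p u : Ultrafilter ℤ) (hu : u ∈ thickPart T) :
    p + u ∈ thickPart T := by
  intro x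
  rw [Ultrafilter.eventually_add]
  filter_upwards with t
  filter_upwards [hu (x + t)] with y hy
  rwa [add_assoc] at hy

/-- The nonempty closed left ideals of `βℤ` inside `thickPart T`. -/
def ideals (T : Set ℕ) : Set (Set (Ultrafilter ℤ)) :=
  {L | IsClosed L ∧ L.Nonempty ∧ L ⊆ thickPart T ∧ ∀ (p : Ultrafilter ℤ), ∀ u ∈ L, p + u ∈ L}

theorem exists_minimal_ideal (T : Set ℕ) (hT : ∀ N : ℕ, ∃ m : ℕ, ∀ j < N, m + j ∈ T) :
    ∃ L, Minimal (· ∈ ideals T) L := by
  refine zorn_superset _ fun c hcs hc => ?_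
  by_cases hcn : c.Nonempty
  · refine ⟨⋂₀ c, ⟨isClosed_sInter fun t ht => (hcs ht).1, ?_, ?_, fun p u hu => ?_⟩,
      fun s hs => Set.sInter_subset_of_mem hs⟩
    · rw [Set.sInter_eq_iInter]
      have := hcn.to_subtype
      refine IsCompact.nonempty_iInter_of_directed_nonempty_isCompact_isClosed
        ((↑) : c → Set (Ultrafilter ℤ)) ?_ ?_ ?_ ?_
      · exact DirectedOn.directed_val (IsChain.directedOn hc.symm)
      · exact fun i => (hcs i.prop).2.1
      · exact fun i => (hcs i.prop).1.isCompact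
      · exact fun i => (hcs i.prop).1
    · obtain ⟨t, ht⟩ := hcn
      exact (Set.sInter_subset_of_mem ht).trans (hcs ht).2.2.1
    · rw [Set.mem_sInter]
      exact fun t ht => (hcs ht).2.2.2 p u (Set.mem_sInter.mp hu t ht)
  · refine ⟨thickPart T, ⟨thickPart_closed T, thickPart_nonempty T hT, subset_rfl,
      thickPart_ideal T⟩, fun s hs => ?_⟩
    exact absurd ⟨s, hs⟩ hcn

/-- `V u c m k = c_k u + c_(k+1) u + … + c_(k+m-1) u + u`. -/
noncomputable def V (u : Ultrafilter ℤ) (c : ℕ → ℤ) : ℕ → ℕ → Ultrafilter ℤ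
  | 0, _ => u
  | m + 1, k => Ultrafilter.map (fun x : ℤ => c k * x) u + V u c m (k + 1)

theorem V_mem {L : Set (Ultrafilter ℤ)} (hL : ∀ (p : Ultrafilter ℤ), ∀ u ∈ L, p + u ∈ L)
    (u : Ultrafilter ℤ) (hu : u ∈ L) (c : ℕ → ℤ) (m : ℕ) : ∀ k, V u c m k ∈ L := by
  induction m with
  | zero => exact fun _ => hu
  | succ m ih => exact fun k => hL _ _ (ih (k + 1))

theorem V_succ (u : Ultrafilter ℤ) (c : ℕ → ℤ) (m k : ℕ) (P : ℤ → Prop) :
    (∀ᶠ z in (V u c (m + 1) k : Filter ℤ), P z) ↔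
      ∀ᶠ y in (u : Filter ℤ), ∀ᶠ z in (V u c m (k + 1) : Filter ℤ), P (c k * y + z) := by
  rw [V, Ultrafilter.eventually_add, Ultrafilter.coe_map, eventually_map]

theorem V_mod (u : Ultrafilter ℤ) (M : ℕ) (q : ZMod M)
    (hq : ∀ᶠ y in (u : Filter ℤ), ((y : ℤ) : ZMod M) = q) (c : ℕ → ℤ) (m : ℕ) :
    ∀ k, ∀ᶠ z in (V u c m k : Filter ℤ),
      ((z : ℤ) : ZMod M) = (((∑ j ∈ Finset.range m, c (k + j)) + 1 : ℤ) : ZMod M) * q := by
  induction m with
  | zero =>
    intro k
    simpa [V] using hq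
  | succ m ih =>
    intro k
    rw [V_succ]
    filter_upwards [hq] with y hy
    filter_upwards [ih (k + 1)] with z hz
    rw [Int.cast_add, hz, Int.cast_mul, hy, Finset.sum_range_succ']
    have h1 : (∑ j ∈ Finset.range m, c (k + 1 + j)) = ∑ j ∈ Finset.range m, c (k + (j + 1)) :=
      Finset.sum_congr rfl (fun j _ => by congr 1; ring)
    rw [h1]
    push_cast
    simp only [add_zero]
    ring

/-- The key fact: `p + V u c r 0 = V u d s 0` with `p` concentrated on the multiples of the sum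
of the coefficients. -/
theorem exists_key (T : Set ℕ) (hT : ∀ N : ℕ, ∃ m : ℕ, ∀ j < N, m + j ∈ T) (r s : ℕ)
    (c d : ℕ → ℤ) (hc : (∑ j ∈ Finset.range r, c j) + 1 ≠ 0)
    (hd : (∑ j ∈ Finset.range s, d j) + 1 = 0) :
    ∃ u p : Ultrafilter ℤ, u ∈ thickPart T ∧ V u d s 0 ∈ thickPart T ∧
      p + V u c r 0 = V u d s 0 ∧
      ∀ᶠ x in (p : Filter ℤ), ((∑ j ∈ Finset.range r, c j) + 1) ∣ x := by
  obtain ⟨L, hL⟩ := exists_minimal_ideal T hT
  obtain ⟨hLc, ⟨u, hu⟩, hLp, hLi⟩ := hL.prop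
  have huu : V u c r 0 ∈ L := V_mem hLi u hu c r 0
  have hneg : V u d s 0 ∈ L := V_mem hLi u hu d s 0
  have hsub : Set.range (fun p : Ultrafilter ℤ => p + V u c r 0) ⊆ L := by
    rintro _ ⟨p, rfl⟩
    exact hLi p _ huu
  have hmem : Set.range (fun p : Ultrafilter ℤ => p + V u c r 0) ∈ ideals T := by
    refine ⟨?_, ⟨u + V u c r 0, ⟨u, rfl⟩⟩, hsub.trans hLp, ?_⟩
    · exact (isCompact_range (Ultrafilter.continuous_add_left (V u c r 0))).isClosed
    · rintro p _ ⟨q, rfl⟩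
      exact ⟨p + q, add_assoc p q (V u c r 0)⟩
  have heq : Set.range (fun p : Ultrafilter ℤ => p + V u c r 0) = L := hL.eq_of_subset hmem hsub
  have hneg' := hneg
  rw [← heq] at hneg
  obtain ⟨p, hp⟩ := hneg
  have hp' : p + V u c r 0 = V u d s 0 := hp
  refine ⟨u, p, hLp hu, hLp hneg', hp', ?_⟩
  set C : ℤ := (∑ j ∈ Finset.range r, c j) + 1 with hC
  set M : ℕ := C.natAbs with hM
  have hM0 : M ≠ 0 := by rw [hM]; exact Int.natAbs_ne_zero.2 hc
  have : NeZero M := ⟨hM0⟩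
  obtain ⟨q, hq⟩ := Ultrafilter.eq_pure_of_finite (Ultrafilter.map (fun y : ℤ => (y : ZMod M)) u)
  have hq' : ∀ᶠ y in (u : Filter ℤ), ((y : ℤ) : ZMod M) = q := by
    have : {z : ZMod M | z = q} ∈ Ultrafilter.map (fun y : ℤ => (y : ZMod M)) u := by
      rw [hq]
      exact Ultrafilter.mem_pure.mpr rfl
    exact this
  have hCM : ((C : ℤ) : ZMod M) = 0 := by
    rw [ZMod.intCast_zmod_eq_zero_iff_dvd, hM]
    exact Int.natAbs_dvd.2 dvd_rfl
  have h1 : ∀ᶠ z in (V u c r 0 : Filter ℤ), ((z : ℤ) : ZMod M) = 0 := by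
    filter_upwards [V_mod u M q hq' c r 0] with z hz
    rw [hz]
    have : (∑ j ∈ Finset.range r, c (0 + j)) + 1 = C := by simp [hC]
    rw [this, hCM, zero_mul]
  have h2 : ∀ᶠ z in (V u d s 0 : Filter ℤ), ((z : ℤ) : ZMod M) = 0 := by
    filter_upwards [V_mod u M q hq' d s 0] with z hz
    rw [hz]
    have : (∑ j ∈ Finset.range s, d (0 + j)) + 1 = 0 := by simpa using hd
    rw [this, Int.cast_zero, zero_mul]
  rw [← hp', Ultrafilter.eventually_add] at h2
  filter_upwards [h2] with x hx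
  obtain ⟨z, hz1, hz2⟩ := (hx.and h1).exists
  have h3 : ((x : ℤ) : ZMod M) = 0 := by
    rw [Int.cast_add, hz2, add_zero] at hz1
    exact hz1
  rw [ZMod.intCast_zmod_eq_zero_iff_dvd, hM] at h3
  exact Int.natAbs_dvd.1 h3

/-- A strictly increasing sequence realising two iterated limit conditions at once. -/
theorem exists_seq (u : Ultrafilter ℤ) (hu : ∀ N : ℤ, ∀ᶠ y in (u : Filter ℤ), N < y)
    (r : Bool → ℕ) (c : Bool → ℕ → ℤ) (P : Bool → ℤ → Prop) (N₀ : ℤ)
    (h : ∀ b, ∀ᶠ z in (V u (c b) (r b) 0 : Filter ℤ), P b z) :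
    ∃ f : ℕ → ℤ, (∀ n, N₀ < f n) ∧ StrictMono f ∧ ∀ b, ∀ e : ℕ → ℕ, StrictMono e →
      P b ((∑ j ∈ Finset.range (r b), c b j * f (e j)) + f (e (r b))) := by
  classical
  -- a state `(b, k, x)`: the first `k` terms have been chosen, with partial sum `x`
  let good : Bool × ℕ × ℤ → Prop := fun σ => σ.2.1 ≤ r σ.1 ∧
    ∀ᶠ z in (V u (c σ.1) (r σ.1 - σ.2.1) σ.2.1 : Filter ℤ), P σ.1 (σ.2.2 + z)
  let step : ℤ → Bool × ℕ × ℤ → Bool × ℕ × ℤ := fun y σ =>
    if σ.2.1 < r σ.1 then (σ.1, σ.2.1 + 1, σ.2.2 + c σ.1 σ.2.1 * y) else σ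
  have hgood0 : ∀ b, good (b, 0, 0) := fun b => ⟨Nat.zero_le _, by simpa using h b⟩
  have hnext : ∀ σ, good σ → ∀ᶠ y in (u : Filter ℤ), good (step y σ) ∧
      (σ.2.1 = r σ.1 → P σ.1 (σ.2.2 + y)) := by
    rintro ⟨b, k, x⟩ ⟨hk, hσ⟩
    change k ≤ r b at hk
    change ∀ᶠ z in (V u (c b) (r b - k) k : Filter ℤ), P b (x + z) at hσ
    rcases lt_or_eq_of_le hk with hlt | heq
    · have h1 : r b - k = (r b - (k + 1)) + 1 := by omega
      rw [h1, V_succ] at hσ
      filter_upwards [hσ] with y hy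
      refine ⟨?_, fun h' => absurd h' hlt.ne⟩
      have : step y (b, k, x) = (b, k + 1, x + c b k * y) := by simp [step, hlt]
      rw [this]
      refine ⟨hlt, ?_⟩
      filter_upwards [hy] with z hz
      rwa [add_assoc]
    · have h1 : r b - k = 0 := by omega
      rw [h1] at hσ
      have hσ' : ∀ᶠ z in (u : Filter ℤ), P b (x + z) := hσ
      filter_upwards [hσ'] with y hy
      have : step y (b, k, x) = (b, k, x) := by simp [step, heq]
      rw [this]
      refine ⟨⟨hk, ?_⟩, fun _ => hy⟩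
      change ∀ᶠ z in (V u (c b) (r b - k) k : Filter ℤ), P b (x + z)
      rw [h1]
      exact hσ'
  obtain ⟨g, hg1, hg2⟩ := exists_seq_of_forall_finset_exists
    (fun p : Finset (Bool × ℕ × ℤ) × ℤ => N₀ < p.2 ∧ (∀ b, (b, 0, 0) ∈ p.1) ∧ ∀ σ ∈ p.1, good σ)
    (fun p q => p.2 < q.2 ∧ ∀ σ ∈ p.1, step q.2 σ ∈ q.1 ∧
      (σ.2.1 = r σ.1 → P σ.1 (σ.2.2 + q.2)))
    (by
      intro S hS
      let U : Finset (Bool × ℕ × ℤ) :=
        (S.biUnion fun p => p.1) ∪ {(true, 0, 0), (false, 0, 0)}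
      have hU : ∀ σ ∈ U, good σ := by
        intro σ hσ
        rcases Finset.mem_union.1 hσ with hσ | hσ
        · obtain ⟨p, hp, hσp⟩ := Finset.mem_biUnion.1 hσ
          exact (hS p hp).2.2 σ hσp
        · rcases Finset.mem_insert.1 hσ with rfl | hσ
          · exact hgood0 true
          · rw [Finset.mem_singleton.1 hσ]
            exact hgood0 false
      have h1 : ∀ᶠ y in (u : Filter ℤ), ∀ σ ∈ U, good (step y σ) ∧
          (σ.2.1 = r σ.1 → P σ.1 (σ.2.2 + y)) := by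
        rw [Filter.eventually_all_finset]
        exact fun σ hσ => hnext σ (hU σ hσ)
      have h2 : ∀ᶠ y in (u : Filter ℤ), ∀ p ∈ S, p.2 < y := by
        rw [Filter.eventually_all_finset]
        exact fun p _ => hu p.2
      obtain ⟨y, hy0, hy1, hy2⟩ := ((hu N₀).and (h1.and h2)).exists
      refine ⟨(U ∪ U.image (step y), y), ⟨hy0, fun b => ?_, fun σ hσ => ?_⟩, fun p hp =>
        ⟨hy2 p hp, fun σ hσ => ?_⟩⟩
      · refine Finset.mem_union_left _ (Finset.mem_union_right _ ?_)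
        cases b <;> simp
      · rcases Finset.mem_union.1 hσ with hσ | hσ
        · exact hU σ hσ
        · obtain ⟨τ, hτ, rfl⟩ := Finset.mem_image.1 hσ
          exact (hy1 τ hτ).1
      · have hσU : σ ∈ U := Finset.mem_union_left _ (Finset.mem_biUnion.2 ⟨p, hp, hσ⟩)
        exact ⟨Finset.mem_union_right _ (Finset.mem_image_of_mem _ hσU), (hy1 σ hσU).2⟩)
  refine ⟨fun n => (g (n + 1)).2, fun n => (hg1 (n + 1)).1, ?_, ?_⟩
  · intro m n hmn
    exact (hg2 (m + 1) (n + 1) (by omega)).1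
  · intro b e he
    -- after `k` steps the state is in the set with index `e (k-1) + 1`
    have key : ∀ k, k ≤ r b → ∃ n, n ≤ e k ∧
        (b, k, ∑ j ∈ Finset.range k, c b j * (g (e j + 1)).2) ∈ (g n).1 := by
      intro k
      induction k with
      | zero =>
        intro _
        exact ⟨0, Nat.zero_le _, by simpa using (hg1 0).2.1 b⟩
      | succ k ih =>
        intro hk
        obtain ⟨n, hn, hmem⟩ := ih (by omega)
        have h1 := ((hg2 n (e k + 1) (by omega)).2 _ hmem).1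
        have h2 : step (g (e k + 1)).2 (b, k, ∑ j ∈ Finset.range k, c b j * (g (e j + 1)).2) =
            (b, k + 1, ∑ j ∈ Finset.range (k + 1), c b j * (g (e j + 1)).2) := by
          have hlt : k < r b := by omega
          simp [step, hlt, Finset.sum_range_succ]
        rw [h2] at h1
        exact ⟨e k + 1, he (Nat.lt_succ_self k), h1⟩
    obtain ⟨n, hn, hmem⟩ := key (r b) le_rfl
    exact ((hg2 n (e (r b) + 1) (by omega)).2 _ hmem).2 rfl

/-- Let `T` be a set of natural numbers containing arbitrarily long intervals (for instance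
`T = ℕ`), coloured with finitely many colours, and let `c_0, …, c_(r-1)` and `d_0, …, d_(s-1)` be
integers with `c_0 + … + c_(r-1) + 1 ≠ 0` and `d_0 + … + d_(s-1) + 1 = 0`. Then there is a strictly
increasing sequence `a` of positive integers such that all the numbers
`c_0 a(e_0) + … + c_(r-1) a(e_(r-1)) + a(e_r)` and `d_0 a(e_0) + … + d_(s-1) a(e_(s-1)) + a(e_s)`
with `e_0 < e_1 < …` are positive, lie in `T` and have one and the same colour.
For `T = ℕ`, `r = s = 1`, `c_0 = 1`, `d_0 = -1` these are the sums `a_n + a_m` and the differences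
`a_m - a_n`, `n < m`. -/
theorem result (T : Set ℕ) (hT : ∀ N : ℕ, ∃ m : ℕ, ∀ j < N, m + j ∈ T)
    {κ : Type*} [Finite κ] (χ : ℕ → κ)
    (r s : ℕ) (c d : ℕ → ℤ) (hc : (∑ j ∈ Finset.range r, c j) + 1 ≠ 0)
    (hd : (∑ j ∈ Finset.range s, d j) + 1 = 0) :
    ∃ a : ℕ → ℕ, StrictMono a ∧ (∀ n, 0 < a n) ∧ ∃ i : κ,
      (∀ e : ℕ → ℕ, StrictMono e → ∃ x ∈ T, 0 < x ∧ χ x = i ∧
        (x : ℤ) = (∑ j ∈ Finset.range r, c j * a (e j)) + a (e r)) ∧
      (∀ e : ℕ → ℕ, StrictMono e → ∃ x ∈ T, 0 < x ∧ χ x = i ∧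
        (x : ℤ) = (∑ j ∈ Finset.range s, d j * a (e j)) + a (e s)) := by
  obtain ⟨u, p, hu, hVT, hkey, hdvd⟩ := exists_key T hT r s c d hc hd
  set C : ℤ := (∑ j ∈ Finset.range r, c j) + 1 with hC
  obtain ⟨i, hi⟩ := Ultrafilter.eq_pure_of_finite
    (Ultrafilter.map (fun z : ℤ => χ z.toNat) (V u d s 0))
  have hw1 : ∀ᶠ z in (V u d s 0 : Filter ℤ), χ z.toNat = i := by
    have : {j : κ | j = i} ∈ Ultrafilter.map (fun z : ℤ => χ z.toNat) (V u d s 0) := by
      rw [hi]
      exact Ultrafilter.mem_pure.mpr rfl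
    exact this
  have hw2 : ∀ᶠ z in (V u d s 0 : Filter ℤ), 0 < z ∧ z.toNat ∈ T := by
    have := hVT 0
    simpa using this
  have hw : ∀ᶠ z in (V u d s 0 : Filter ℤ), 0 < z ∧ z.toNat ∈ T ∧ χ z.toNat = i := by
    filter_upwards [hw1, hw2] with z h1 h2
    exact ⟨h2.1, h2.2, h1⟩
  have hs : ∀ᶠ x in (p : Filter ℤ), ∀ᶠ z in (V u c r 0 : Filter ℤ),
      0 < x + z ∧ (x + z).toNat ∈ T ∧ χ (x + z).toNat = i := by
    rw [← hkey, Ultrafilter.eventually_add] at hw
    exact hw
  obtain ⟨x, hx, α, hα⟩ := (hs.and hdvd).exists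
  have huinf : ∀ N : ℤ, ∀ᶠ y in (u : Filter ℤ), N < y := by
    intro N
    filter_upwards [hu (-N)] with y hy
    linarith [hy.1]
  obtain ⟨f, hf0, hf1, hf2⟩ := exists_seq u huinf (fun b => if b then r else s)
    (fun b => if b then c else d)
    (fun b z => if b then 0 < x + z ∧ (x + z).toNat ∈ T ∧ χ (x + z).toNat = i else
      0 < z ∧ z.toNat ∈ T ∧ χ z.toNat = i) |α|
    (by
      intro b
      cases b
      · simpa using hw
      · simpa using hx)
  have hpos : ∀ n, 0 < α + f n := by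
    intro n
    have h1 := hf0 n
    have h2 := neg_abs_le α
    linarith
  have hcast : ∀ n, (((α + f n).toNat : ℕ) : ℤ) = α + f n := fun n =>
    Int.toNat_of_nonneg (hpos n).le
  have hsum : ∀ (m : ℕ) (w : ℕ → ℤ) (e : ℕ → ℕ),
      (∑ j ∈ Finset.range m, w j * (((α + f (e j)).toNat : ℕ) : ℤ)) +
        (((α + f (e m)).toNat : ℕ) : ℤ) =
      α * ((∑ j ∈ Finset.range m, w j) + 1) + ((∑ j ∈ Finset.range m, w j * f (e j)) +
        f (e m)) := by
    intro m w e
    simp only [hcast, mul_add, Finset.sum_add_distrib, mul_one]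
    rw [← Finset.sum_mul]
    ring
  refine ⟨fun n => (α + f n).toNat, ?_, ?_, i, ?_, ?_⟩
  · intro n m hnm
    have h1 := hf1 hnm
    have h2 := hpos n
    have h3 := hpos m
    show (α + f n).toNat < (α + f m).toNat
    omega
  · intro n
    have h2 := hpos n
    show 0 < (α + f n).toNat
    omega
  · intro e he
    have h1 := hf2 true e he
    simp only [if_true] at h1
    refine ⟨_, h1.2.1, ?_, h1.2.2, ?_⟩
    · have := h1.1
      omega
    · rw [Int.toNat_of_nonneg h1.1.le, hsum r c e, hα, ← hC]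
      ring
  · intro e he
    have h1 := hf2 false e he
    simp only [Bool.false_eq_true, if_false] at h1
    refine ⟨_, h1.2.1, ?_, h1.2.2, ?_⟩
    · have := h1.1
      omega
    · rw [Int.toNat_of_nonneg h1.1.le, hsum s d e, hd]
      ring

end Pool.Agent.Results.MP_4cf4e3_co.SumsDifferences
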